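import Pool.Agent.Lib_helper92.HCF.Base
import Pool.Agent.Lib_helper92.HCF.FIA

/-! MF : the mean value of the variance of primes in progressions, exact formula. Definitions. -/

set_option autoImplicit false

namespace Pool.Agent.MF

open Finset Complex MeasureTheory Pool.Agent.Var35 Pool.Agent.Var73 Pool.Agent.HC
open scoped ArithmeticFunction ArithmeticFunction.Moebius

/-- the order of the Farey dissection -/
noncomputable def RR (X : ℝ) (Y : ℕ) : ℕ := ⌊X / Y * Real.log X ^ 8⌋₊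

/-- half of the width of the Farey arc around a fraction of denominator `q` -/
noncomputable def wd (X : ℝ) (Y q : ℕ) : ℝ := Y / (2 * q * (X * Real.log X ^ 8))

/-- `∑_c f(c/q + β)` -/
noncomputable def CS (f : ℝ → ℝ) (q : ℕ) (β : ℝ) : ℝ := ∑ c ∈ Cd q, f ((c : ℝ) / q + β)

/-- `∑_c |S(c/q + β) - μ(q)/φ(q) I(β)|²` -/
noncomputable def EQ (X : ℝ) (q : ℕ) (β : ℝ) : ℝ :=
  ∑ c ∈ Cd q, ‖S Lam ⌊X⌋₊ ((c : ℝ) / q + β) - ((μ q : ℝ) / (Nat.totient q : ℝ) : ℝ) * Ic X β‖ ^ 2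

/-- the defect -/
noncomputable def DD (X : ℝ) (Y : ℕ) : ℝ :=
  Y * ∑ q ∈ Icc 1 (RR X Y), ∫ β in (-(wd X Y q))..(wd X Y q), kk (q * Y * |β|) * EQ X q β

/-- the centres of the arcs, as pairs (denominator, numerator); `1/1` is added because of the
half arc at `1` -/
noncomputable def CT (R : ℕ) : Finset (ℕ × ℕ) :=
  insert (1, 1) (((Icc 1 R) ×ˢ (range (R + 1))).filter (fun x => x.2 ∈ Cd x.1))

/-- the sum of the functions `K q (t - c/q)` over the arcs containing `t` -/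
noncomputable def AR (R : ℕ) (Δ : ℕ → ℝ) (K : ℕ → ℝ → ℝ) (t : ℝ) : ℝ :=
  ∑ x ∈ CT R, if |t - (x.2 : ℝ) / x.1| ≤ Δ x.1 then K x.1 (t - (x.2 : ℝ) / x.1) else 0

/-- the sum over the arcs of the integrals -/
noncomputable def SA (f : ℝ → ℝ) (R : ℕ) (Δ : ℕ → ℝ) (K : ℕ → ℝ → ℝ) : ℝ :=
  ∑ q ∈ Icc 1 R, ∫ β in (-(Δ q))..(Δ q), CS f q β * K q β

/-- the Gauss sum of `χ` modulo `Q` at the frequency `l / Q` -/
noncomputable def tau {Q : ℕ} (χ : DirichletCharacter ℂ Q) (l : ℕ) : ℂ :=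
  ∑ b ∈ range Q, χ (b : ZMod Q) * e (b * ((l : ℝ) / Q))

/-- the twisted sum `∑ Λ(n) χ(n)` -/
noncomputable def cc {Q : ℕ} (N : ℕ) (χ : DirichletCharacter ℂ Q) : ℂ :=
  ∑ n ∈ Icc 1 N, (Lam n : ℂ) * χ (n : ZMod Q)

/-- the error term of the density -/
noncomputable def EW (Y : ℕ) (δ L : ℝ) : ℝ := Y * δ * (40 * (1 + Real.log L) / L ^ 2)

/-- the surplus of the characters of conductor at most `D` -/
noncomputable def SUR (X : ℝ) (Q R : ℕ) (D : ℝ) : ℝ :=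
  (1 / (Q : ℝ)) * ∑ χ : DirichletCharacter ℂ Q,
    if (χ.conductor : ℝ) ≤ D then ‖cc ⌊X⌋₊ χ‖ ^ 2 *
      ∑ d ∈ Q.divisors.filter (fun d => R < d ∧ χ.conductor ∣ d),
        (χ.conductor : ℝ) / Nat.totient d else 0

end Pool.Agent.MF
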